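import Pool.Agent.Helper58.SF.StA

/-!
# UPC: the part above a path connected open set of a level
-/

set_option autoImplicit false

namespace Pool.Agent.Helper83.SF

open Set Topology Pool.Agent.Helper13.TR Pool.Agent.Helper58.SF
open Pool.Agent.Helper13.TW (IsArc Spl IsSCC dch Chn Splt GT CSy MP Val LR MCell StARB StARX StSCL StUAR StINF StLIN StAC1 StSDM)

/-- A point above the level can be moved down into a neighbourhood of its projection. -/
private theorem down (hflw : StFLW) {P : Type} [TopologicalSpace P] [T2Space P] {r : P → ℝ}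
    {R : ℝ → P → P} (hF : Flow P r R) {t : ℝ} (ht : 0 < t) {V U : Set P}
    (hU : U = {y : P | t < r y ∧ R t y ∈ V}) {N : Set P} (hN : IsOpen N) {a : P} (ha : a ∈ U)
    (haN : R t a ∈ N) : ∃ a' ∈ N, t < r a' ∧ JoinedIn U a a' := by
  subst hU
  obtain ⟨ha1, ha2⟩ := ha
  have hca : ContinuousAt (fun τ : ℝ => R τ a) t := by
    have h1 : ContinuousAt (fun p : ℝ × P => R p.1 p.2) (t, a) := by
      refine hF.Rc.continuousAt ?_
      exact (isOpen_lt continuous_const continuous_fst).mem_nhds ht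
    exact ContinuousAt.comp (f := fun τ : ℝ => (τ, a)) (x := t) h1
      (continuous_id.prodMk continuous_const).continuousAt
  have hev : ∀ᶠ τ in 𝓝[>] t, R τ a ∈ N :=
    (hca.eventually (hN.mem_nhds haN)).filter_mono nhdsWithin_le_nhds
  obtain ⟨τ, hτ, hτt⟩ := (hev.and self_mem_nhdsWithin).exists
  have hτt : t < τ := hτt
  have hτ0 : 0 < τ := ht.trans hτt
  have hJ := (hflw P r R hF).2.2.2.1 τ a hτ0
  refine ⟨R τ a, hτ, ?_, hJ.mono ?_⟩
  · rw [hF.rR τ a hτ0]
    exact lt_min hτt ha1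
  · rintro z ⟨σ, hσ, rfl⟩
    have hσ0 : 0 < σ := hτ0.trans_le hσ
    refine ⟨?_, ?_⟩
    · rw [hF.rR σ a hσ0]
      exact lt_min (hτt.trans_le hσ) ha1
    · rw [hF.RR t σ a ht (hτt.le.trans hσ)]
      exact ha2

theorem hUPC : StLSP → StBEX → StFLW → StUPC := by
  intro hlsp hbex hflw P _ r R dg hSB t ht0 ht1 V₁ hV hpc
  obtain ⟨O, hO, rfl⟩ := hV
  have := hSB.met
  have : T2Space P := inferInstance
  have hF : Flow P r R := hSB.box.toFlow
  have hRt : Continuous (R t) := (hflw P r R hF).1 t ht0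
  have hmem : ∀ y : P, t < r y → R t y ∈ O → R t y ∈ O ∩ {y | r y = t} := by
    intro y hy hyO
    refine ⟨hyO, ?_⟩
    show r (R t y) = t
    rw [hF.rR t y ht0]
    exact min_eq_left hy.le
  have hUO : {y : P | t < r y ∧ R t y ∈ O ∩ {y | r y = t}} = {y | t < r y} ∩ R t ⁻¹' O := by
    ext y
    constructor
    · rintro ⟨h1, h2⟩
      exact ⟨h1, h2.1⟩
    · rintro ⟨h1, h2⟩
      exact ⟨h1, hmem y h1 h2⟩
  refine ⟨?_, ?_⟩
  · rw [hUO]
    exact (isOpen_lt continuous_const hF.rc).inter (hO.preimage hRt)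
  -- points above
  have habove : ∀ p ∈ O ∩ {y | r y = t}, ∃ a : P, t < r a ∧ R t a = p := by
    rintro p ⟨hpO, hpt⟩
    have hpt : r p = t := hpt
    obtain ⟨y, hy, hry⟩ := (hbex P r R dg hSB).1 p ((t + 1) / 2) (by rw [hpt]; linarith)
      (by linarith)
    refine ⟨y, by rw [hry]; linarith, ?_⟩
    have := hy.2
    rwa [hpt] at this
  have key : ∀ p ∈ O ∩ {y | r y = t}, ∀ q ∈ O ∩ {y | r y = t}, ∀ a b : P, t < r a → R t a = p →
      t < r b → R t b = q → JoinedIn {y : P | t < r y ∧ R t y ∈ O ∩ {y | r y = t}} a b := by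
    intro p hp q hq
    refine hpc.isConnected.isPreconnected.induction₂ (fun p q => ∀ a b : P, t < r a → R t a = p →
      t < r b → R t b = q → JoinedIn {y : P | t < r y ∧ R t y ∈ O ∩ {y | r y = t}} a b)
      ?_ ?_ ?_ hp hq
    · intro x hx
      have hxt : r x = t := hx.2
      have hN' : IsOpen ({y : P | r y < t} ∪ R t ⁻¹' O) :=
        (isOpen_lt hF.rc continuous_const).union (hO.preimage hRt)
      obtain ⟨N, hN, hxN, hNN, hj⟩ := hlsp P r R dg hSB x _ hN'
        (Or.inr (show R t x ∈ O by rw [hF.Rid t x hxt.le]; exact hx.1))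
      filter_upwards [mem_nhdsWithin_of_mem_nhds (hN.mem_nhds hxN), self_mem_nhdsWithin] with
        y hyN hyV a b ha hax hb hby
      obtain ⟨a', ha'N, ha't, hja⟩ := down hflw hF ht0 rfl hN (a := a)
        (show a ∈ {y : P | t < r y ∧ R t y ∈ O ∩ {y | r y = t}} from ⟨ha, hax ▸ hx⟩) (hax ▸ hxN)
      obtain ⟨b', hb'N, hb't, hjb⟩ := down hflw hF ht0 rfl hN (a := b)
        (show b ∈ {y : P | t < r y ∧ R t y ∈ O ∩ {y | r y = t}} from ⟨hb, hby ▸ hyV⟩) (hby ▸ hyN)
      refine hja.trans (JoinedIn.trans ?_ hjb.symm)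
      refine (hj a' ha'N b' hb'N (hxt ▸ ha't) (hxt ▸ hb't)).mono ?_
      rintro z ⟨hz1, hz2⟩
      have hz2 : t < r z := hxt ▸ hz2
      rcases hz1 with hz1 | hz1
      · exact absurd hz2 (not_lt.mpr (le_of_lt hz1))
      · exact ⟨hz2, hmem z hz2 hz1⟩
    · intro x y z hx hy hz h1 h2 a c ha hax hc hcz
      obtain ⟨b, hb, hby⟩ := habove y hy
      exact (h1 a b ha hax hb hby).trans (h2 b c hb hby hc hcz)
    · intro x y hx hy h1 a b ha hay hb hbx
      exact (h1 b a hb hbx ha hay).symm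
  obtain ⟨p, hp⟩ := hpc.nonempty
  obtain ⟨a, ha, hap⟩ := habove p hp
  refine ⟨a, ⟨ha, hap ▸ hp⟩, ?_⟩
  rintro b ⟨hb1, hb2⟩
  exact key p hp _ hb2 a b ha hap hb1 rfl

end Pool.Agent.Helper83.SF
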